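import Mathlib
import Pool.Agent.H75.WidthFinal

set_option autoImplicit false
open Filter Topology

/-! The modified width conjecture of Edrei, Saff and Varga is false.  The function
`f z = ∑ z ^ (6 i (i+1)) / H(i) ^ 12` (`H` the hyperfactorial) is entire of order two, and for
every `m ≥ 12` the zeros of its `m`-th partial sum are simple outside the disc of radius two and
are so well separated that no disc of centre `w`, `|w| ≥ 2`, and radius `|w| / (4800 √m)` holds
two of them. -/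

namespace Pool.Agent.Results.MP_4f5d52_an.WidthFails

/-- `a` is the coefficient sequence of an entire function: `∑ a_k z^k` converges for every `z`. -/
def Entire (a : ℕ → ℂ) : Prop := ∀ z : ℂ, Summable fun k : ℕ => a k * z ^ k

/-- The entire function `f z = ∑ a_k z^k`. -/
noncomputable def fn (a : ℕ → ℂ) (z : ℂ) : ℂ := ∑' k : ℕ, a k * z ^ k

/-- The maximum modulus `M(r) = max_{|z| = r} |f z|`. -/
noncomputable def maxMod (a : ℕ → ℂ) (r : ℝ) : ℝ := ⨆ z : Metric.sphere (0 : ℂ) r, ‖fn a z‖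

/-- The order `limsup_{r → ∞} log log M(r) / log r`. -/
noncomputable def order (a : ℕ → ℂ) : EReal :=
  limsup (fun r : ℝ => ((Real.log (Real.log (maxMod a r)) / Real.log r : ℝ) : EReal)) atTop

/-- The `m`-th partial sum `p_m = ∑_{k ≤ m} a_k X^k`. -/
noncomputable def psum (a : ℕ → ℂ) (m : ℕ) : Polynomial ℂ :=
  ∑ k ∈ Finset.range (m + 1), Polynomial.C (a k) * Polynomial.X ^ k

/-- The zeros of `p_m` in the closed disc `|z - w| ≤ R`, as a multiset (each zero as often as its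
multiplicity says). -/
noncomputable def zerosIn (a : ℕ → ℂ) (m : ℕ) (w : ℂ) (R : ℝ) : Multiset ℂ :=
  (psum a m).roots.filter fun z => ‖z - w‖ ≤ R

/-- `u_m → ∞` as `m → ∞` along `M`. -/
def ToInfinity (M : Set ℕ) (u : ℕ → ℝ) : Prop :=
  ∀ K : ℝ, ∃ m₀ : ℕ, ∀ m ∈ M, m₀ ≤ m → K ≤ u m

/-- The common form of (a) and (b) at the argument `θ`: there are positive `ρ_m → ∞` with
`ρ_m = O(m ^ α)` such that for each `ε > 0` the number of zeros of `p_m` in
`|z - ρ_m e^{iθ}| ≤ ρ_m m ^ (-δ + ε)` tends to infinity as `m → ∞`, `m ∈ M`.  The way in which the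
zeros are counted is the parameter `cnt`. -/
def ZeroRich (cnt : Multiset ℂ → ℕ) (a : ℕ → ℂ) (M : Set ℕ) (θ : Real.Angle) (α δ : ℝ) : Prop :=
  ∃ ρ : ℕ → ℝ, (∀ m ∈ M, 0 < ρ m) ∧ ToInfinity M ρ ∧
    (∃ (C : ℝ) (m₀ : ℕ), ∀ m ∈ M, m₀ ≤ m → ρ m ≤ C * (m : ℝ) ^ α) ∧
    ∀ ε : ℝ, 0 < ε → ToInfinity M fun m =>
      (cnt (zerosIn a m ((ρ m : ℂ) * (θ.toCircle : ℂ)) (ρ m * (m : ℝ) ^ (-δ + ε))) : ℝ)

/-- The modified width conjecture (Q1), with the zeros counted by `cnt`. -/
def ModifiedWidthConjecture (cnt : Multiset ℂ → ℕ) : Prop :=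
  ∀ (a : ℕ → ℂ) (lam : ℝ), Entire a → 0 < lam → order a = (lam : EReal) →
    ∃ (M : Set ℕ) (E : Finset Real.Angle), M.Infinite ∧ (∀ m ∈ M, 0 < m) ∧
      (∀ θ : Real.Angle, θ ∉ E → ZeroRich cnt a M θ (2 / lam) 1) ∧
      (∀ θ ∈ E, ∃ k : ℕ, 2 ≤ k ∧ ZeroRich cnt a M θ (2 / (lam * k)) (1 / k))

/-- Counting with multiplicity. -/
def withMult (s : Multiset ℂ) : ℕ := Multiset.card s

/-- Counting distinct zeros. -/
noncomputable def distinct (s : Multiset ℂ) : ℕ := s.toFinset.card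

open Pool.Agent.H75.Width

lemma cc_hasSum (z : ℂ) : HasSum (fun k : ℕ => cc k * z ^ k) (ff z) := by
  have h := ff_hasFPowerSeries.hasSum (y := z) (by simp)
  simp only [pser, FormalMultilinearSeries.ofScalars_apply_eq, zero_add, smul_eq_mul] at h
  exact h

lemma cc_entire : Entire cc := fun z => (cc_hasSum z).summable

lemma fn_cc : fn cc = ff := by
  ext z
  exact (cc_hasSum z).tsum_eq

lemma maxMod_le (r : ℝ) (hr : 0 ≤ r) : maxMod cc r ≤ Real.exp (6 * r ^ 2) := by
  unfold maxMod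
  have : Nonempty (Metric.sphere (0 : ℂ) r) := (NormedSpace.sphere_nonempty.2 hr).to_subtype
  refine ciSup_le (fun z => ?_)
  rw [fn_cc]
  have hz : ‖(z : ℂ)‖ = r := by simp
  have h := ff_norm_le (z : ℂ)
  rwa [hz] at h

lemma le_maxMod (z : ℂ) : ‖ff z‖ ≤ maxMod cc ‖z‖ := by
  unfold maxMod
  rw [fn_cc]
  have hb : BddAbove (Set.range fun w : Metric.sphere (0 : ℂ) ‖z‖ => ‖ff w‖) := by
    refine ⟨Real.exp (6 * ‖z‖ ^ 2), ?_⟩
    rintro _ ⟨w, rfl⟩
    have hw : ‖(w : ℂ)‖ = ‖z‖ := by simp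
    have h := ff_norm_le (w : ℂ)
    rwa [hw] at h
  exact le_ciSup hb (⟨z, by simp⟩ : Metric.sphere (0 : ℂ) ‖z‖)

lemma one_lt_maxMod (r : ℝ) (hr : 0 < r) : 1 < maxMod cc r := by
  have h := ff_hasSum (r : ℂ)
  have hre : HasSum (fun j : ℕ => aa j * r ^ nn j) (ff (r : ℂ)).re := by
    have := Complex.hasSum_re h
    refine this.congr_fun ?_ |> fun h => h
    intro j
    have : (aa j : ℂ) * (r : ℂ) ^ nn j = ((aa j * r ^ nn j : ℝ) : ℂ) := by
      push_cast; ring
    rw [this, Complex.ofReal_re]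
  have h1 : ∑ j ∈ Finset.range 2, aa j * r ^ nn j ≤ (ff (r : ℂ)).re :=
    sum_le_hasSum _ (fun j _ => by have := aa_pos j; positivity) hre
  have h2 : ∑ j ∈ Finset.range 2, aa j * r ^ nn j = 1 + r ^ 12 := by
    simp [Finset.sum_range_succ, aa, nn, hyp]
  have h3 : 0 < r ^ 12 := by positivity
  have h4 := le_maxMod (r : ℂ)
  have h5 : ‖(r : ℂ)‖ = r := by rw [Complex.norm_real, Real.norm_of_nonneg hr.le]
  rw [h5] at h4
  have h6 := Complex.re_le_norm (ff (r : ℂ))
  linarith

lemma order_cc : order cc = ((2 : ℝ) : EReal) := by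
  unfold order
  apply le_antisymm
  · have hlim : Tendsto (fun r : ℝ => ((2 + Real.log 6 / Real.log r : ℝ) : EReal)) atTop
        (𝓝 ((2 : ℝ) : EReal)) := by
      apply (continuous_coe_real_ereal.tendsto (2 : ℝ)).comp
      have h1 : Tendsto (fun r : ℝ => Real.log 6 / Real.log r) atTop (𝓝 0) :=
        Real.tendsto_log_atTop.const_div_atTop _
      have h2 := h1.const_add 2
      simpa using h2
    rw [← hlim.limsup_eq]
    refine limsup_le_limsup ?_
    filter_upwards [eventually_gt_atTop (1 : ℝ)] with r hr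
    rw [EReal.coe_le_coe_iff]
    have hr0 : 0 < r := by linarith
    have hlr : 0 < Real.log r := Real.log_pos hr
    have hM1 := one_lt_maxMod r hr0
    have hM2 := maxMod_le r hr0.le
    have hl : 0 < Real.log (maxMod cc r) := Real.log_pos hM1
    have hl2 : Real.log (maxMod cc r) ≤ 6 * r ^ 2 := by
      have := Real.log_le_log (by linarith) hM2
      rwa [Real.log_exp] at this
    have hl3 : Real.log (Real.log (maxMod cc r)) ≤ Real.log 6 + 2 * Real.log r := by
      have := Real.log_le_log hl hl2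
      rwa [Real.log_mul (by norm_num) (by positivity), Real.log_pow, Nat.cast_ofNat] at this
    rw [div_le_iff₀ hlr]
    have : (2 + Real.log 6 / Real.log r) * Real.log r = Real.log 6 + 2 * Real.log r := by
      field_simp; ring
    linarith
  · refine le_limsup_of_frequently_le ?_ (by isBoundedDefault)
    · have ht : Tendsto (fun i : ℕ => ((2 * i : ℕ) : ℝ)) atTop atTop := by
        apply tendsto_natCast_atTop_atTop.comp
        exact tendsto_id.const_mul_atTop' (by norm_num)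
      apply ht.frequently
      apply Eventually.frequently
      filter_upwards [eventually_ge_atTop 1] with i hi
      rw [EReal.coe_le_coe_iff]
      set r : ℝ := ((2 * i : ℕ) : ℝ) with hr
      have hr2 : 2 ≤ r := by
        rw [hr]; exact_mod_cast (by omega : 2 ≤ 2 * i)
      have hlr : 0 < Real.log r := Real.log_pos (by linarith)
      have h1 := ff_lower_nat i hi
      have h2 := le_maxMod ((2 * i : ℕ) : ℂ)
      rw [Complex.norm_natCast] at h2
      have h3 : Real.exp (r ^ 2) ≤ maxMod cc r := h1.trans h2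
      have h4 : r ^ 2 ≤ Real.log (maxMod cc r) := by
        have := Real.log_le_log (Real.exp_pos _) h3
        rwa [Real.log_exp] at this
      have h5 : 2 * Real.log r ≤ Real.log (Real.log (maxMod cc r)) := by
        have := Real.log_le_log (by positivity) h4
        rwa [Real.log_pow, Nat.cast_ofNat] at this
      rw [le_div_iff₀ hlr]
      exact h5

lemma psum_eq (m J : ℕ) (h1 : nn J ≤ m) (h2 : m < nn (J + 1)) : psum cc m = PJ J := by
  have h := section_eq m J h1 h2
  simp only [ff_iteratedDeriv] at h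
  exact h

/-- The separation of the zeros. -/
lemma sep (m : ℕ) (hm : 12 ≤ m) (w : ℂ) (hw : 2 ≤ ‖w‖) :
    Multiset.card (zerosIn cc m w (‖w‖ / (4800 * Real.sqrt m))) ≤ 1 := by
  obtain ⟨J, hJ1, hJ2⟩ := exists_index m
  have hJ : 1 ≤ J := by
    by_contra h
    have : J = 0 := by omega
    subst this
    simp [nn] at hJ2
    omega
  have hm0 : (0 : ℝ) < m := by exact_mod_cast (by omega : 0 < m)
  have hs : 0 < Real.sqrt m := Real.sqrt_pos.2 hm0
  have hJm : ((J : ℝ) + 1) ≤ Real.sqrt m := by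
    have e1 : (J + 1) ^ 2 ≤ m := by
      refine le_trans ?_ hJ1
      unfold nn
      nlinarith
    have e2 : ((J : ℝ) + 1) ^ 2 ≤ m := by exact_mod_cast e1
    exact Real.le_sqrt_of_sq_le e2
  have h := count_le J hJ w (‖w‖ / (4800 * Real.sqrt m)) (1 / (4800 * Real.sqrt m)) hw
    (by rw [mul_one_div]) (by
      rw [mul_one_div, div_le_one (by positivity)]
      exact mul_le_mul_of_nonneg_left hJm (by norm_num))
  unfold zerosIn
  rw [psum_eq m J hJ1 hJ2]
  omega

/-- The common form of (a) and (b) fails at every argument and for every infinite `M` when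
`δ > 1/2`; in (a) one has `δ = 1`. -/
lemma not_zeroRich (cnt : Multiset ℂ → ℕ) (hcnt : ∀ s, cnt s ≤ Multiset.card s)
    (M : Set ℕ) (hM : M.Infinite) (θ : Real.Angle) (α δ : ℝ) (hδ : 1 / 2 < δ) :
    ¬ ZeroRich cnt cc M θ α δ := by
  rintro ⟨ρ, hpos, hinf, -, hc⟩
  set ε : ℝ := (δ - 1 / 2) / 2 with hε
  have hε0 : 0 < ε := by rw [hε]; linarith
  obtain ⟨m1, h1⟩ := hinf 2
  obtain ⟨m2, h2⟩ := hc ε hε0 2
  have ht : Tendsto (fun m : ℕ => (m : ℝ) ^ ε) atTop atTop :=
    (tendsto_rpow_atTop hε0).comp tendsto_natCast_atTop_atTop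
  obtain ⟨m3, h3⟩ := eventually_atTop.1 (ht.eventually_ge_atTop 4800)
  obtain ⟨m, hmM, hm⟩ := hM.exists_gt (max (max m1 m2) (max m3 12))
  have hm1 : m1 ≤ m := by omega
  have hm2 : m2 ≤ m := by omega
  have hm3 : m3 ≤ m := by omega
  have hm4 : 12 ≤ m := by omega
  have hm0 : (0 : ℝ) < m := by exact_mod_cast (by omega : 0 < m)
  have hρ := hpos m hmM
  set w : ℂ := (ρ m : ℂ) * (θ.toCircle : ℂ) with hw
  have hwn : ‖w‖ = ρ m := by
    rw [hw, norm_mul, Complex.norm_real, Real.norm_of_nonneg hρ.le, Circle.norm_coe, mul_one]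
  have hs := sep m hm4 w (by rw [hwn]; exact h1 m hmM hm1)
  have hrad : ρ m * (m : ℝ) ^ (-δ + ε) ≤ ‖w‖ / (4800 * Real.sqrt m) := by
    rw [hwn, le_div_iff₀ (by positivity)]
    have e1 : (m : ℝ) ^ (-δ + ε) * (m : ℝ) ^ (1 / 2 : ℝ) * (m : ℝ) ^ ε = 1 := by
      rw [← Real.rpow_add hm0, ← Real.rpow_add hm0]
      have : -δ + ε + 1 / 2 + ε = 0 := by rw [hε]; ring
      rw [this, Real.rpow_zero]
    have e2 := h3 m hm3
    have e3 : 0 < (m : ℝ) ^ (-δ + ε) := Real.rpow_pos_of_pos hm0 _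
    have e4 : 0 < (m : ℝ) ^ (1 / 2 : ℝ) := Real.rpow_pos_of_pos hm0 _
    rw [Real.sqrt_eq_rpow]
    calc ρ m * (m : ℝ) ^ (-δ + ε) * (4800 * (m : ℝ) ^ (1 / 2 : ℝ))
        = ρ m * (((m : ℝ) ^ (-δ + ε) * (m : ℝ) ^ (1 / 2 : ℝ)) * 4800) := by ring
      _ ≤ ρ m * (((m : ℝ) ^ (-δ + ε) * (m : ℝ) ^ (1 / 2 : ℝ)) * (m : ℝ) ^ ε) := by
          apply mul_le_mul_of_nonneg_left _ hρ.le
          exact mul_le_mul_of_nonneg_left e2 (by positivity)
      _ = ρ m := by rw [e1, mul_one]
  have hle : zerosIn cc m w (ρ m * (m : ℝ) ^ (-δ + ε)) ≤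
      zerosIn cc m w (‖w‖ / (4800 * Real.sqrt m)) := by
    unfold zerosIn
    exact Multiset.monotone_filter_right _ (fun z hz => le_trans hz hrad)
  have hcard := Multiset.card_le_card hle
  have h2' : (2 : ℝ) ≤ (cnt (zerosIn cc m w (ρ m * (m : ℝ) ^ (-δ + ε))) : ℝ) := h2 m hmM hm2
  have h2'' : 2 ≤ cnt (zerosIn cc m w (ρ m * (m : ℝ) ^ (-δ + ε))) := by exact_mod_cast h2'
  have := hcnt (zerosIn cc m w (ρ m * (m : ℝ) ^ (-δ + ε)))
  omega

lemma not_conj (cnt : Multiset ℂ → ℕ) (hcnt : ∀ s, cnt s ≤ Multiset.card s) :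
    ¬ ModifiedWidthConjecture cnt := by
  intro H
  obtain ⟨M, E, hM, -, hA, -⟩ := H cc 2 cc_entire (by norm_num) order_cc
  have : Infinite Real.Angle := by
    have hinf : (Set.Ioc (-Real.pi) Real.pi).Infinite :=
      Set.Ioc_infinite (by linarith [Real.pi_pos])
    have := hinf.to_subtype
    exact Infinite.of_injective (fun x : Set.Ioc (-Real.pi) Real.pi => ((x : ℝ) : Real.Angle))
      (by
        intro x y hxy
        have h1 := Real.Angle.toReal_coe_eq_self_iff.2 ⟨x.2.1, x.2.2⟩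
        have h2 := Real.Angle.toReal_coe_eq_self_iff.2 ⟨y.2.1, y.2.2⟩
        apply Subtype.ext
        rw [← h1, ← h2]
        exact congrArg Real.Angle.toReal hxy)
  obtain ⟨θ, hθ⟩ := Infinite.exists_notMem_finset E
  exact not_zeroRich cnt hcnt M hM θ _ 1 (by norm_num) (hA θ hθ)

/-- The modified width conjecture is false, whether the zeros are counted with multiplicity or not.
More precisely there is an entire function of order two such that for every infinite `M` condition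
(a) fails at every argument (even with any `δ > 1/2` in place of `1` and any `α` in place of
`2 / λ`); and for `m ≥ 12` no disc with centre `w`, `|w| ≥ 2`, and radius `|w| / (4800 √m)` holds
two zeros of `p_m`, counted with multiplicity. -/
theorem result :
    ¬ ModifiedWidthConjecture withMult ∧ ¬ ModifiedWidthConjecture distinct ∧
    ∃ a : ℕ → ℂ, Entire a ∧ order a = ((2 : ℝ) : EReal) ∧
      (∀ M : Set ℕ, M.Infinite → ∀ (θ : Real.Angle) (α δ : ℝ), 1 / 2 < δ →
        ¬ ZeroRich withMult a M θ α δ ∧ ¬ ZeroRich distinct a M θ α δ) ∧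
      (∀ m : ℕ, 12 ≤ m → ∀ w : ℂ, 2 ≤ ‖w‖ →
        Multiset.card (zerosIn a m w (‖w‖ / (4800 * Real.sqrt m))) ≤ 1) := by
  have hd : ∀ s : Multiset ℂ, distinct s ≤ Multiset.card s := fun s =>
    Multiset.toFinset_card_le s
  refine ⟨not_conj withMult (fun s => le_rfl), not_conj distinct hd, cc, cc_entire, order_cc,
    fun M hM θ α δ hδ => ⟨not_zeroRich withMult (fun s => le_rfl) M hM θ α δ hδ,
      not_zeroRich distinct hd M hM θ α δ hδ⟩, sep⟩

end Pool.Agent.Results.MP_4f5d52_an.WidthFails
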